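import Pool.Agent.Run7.h184.AJ.Main

/-!
# Height pairings on the homologically trivial cycles: definitions

`C` is a `Λ`-linear rigid symmetric monoidal category with a realisation `R` and a tensor ideal `I` of
homologically trivial morphisms (`Pool/Agent/Run7/h184/AJ/Defs.lean`). In the intended use `Λ = ℚ`, the
objects of `C` are the powers of a smooth projective variety `X` over `ℚ`, the morphisms from `Y` to
`Z` are the elements of `CH^*(Y × Z) ⊗ ℚ`, and `Cyc I Y` is the sum of the spaces
`V^p(Y) = CH^p(Y)^0 ⊗ ℚ` over all `p`.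
-/

set_option autoImplicit false

open CategoryTheory Limits MonoidalCategory Module
open Pool.Agent.Y112.SR Pool.Agent.Y112.KD Pool.Agent.N64.AF Pool.Agent.Run7.h184.AJ

namespace Pool.Agent.Run7.h641.HP

universe v u w t x

variable {C : Type u} [Category.{v} C] [Preadditive C] [MonoidalCategory C]
  [SymmetricCategory C] {Λ : Type t} [Field Λ] [Linear Λ C] {K : Type w} [Field K]
  {R : SuperRealisation C K}

/-- The space of the homologically trivial cycles on `Y`. -/
def Cyc (I : TrivialIdeal Λ R) (Y : C) : Type v := I.J (𝟙_ C) Y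

instance (I : TrivialIdeal Λ R) (Y : C) : AddCommGroup (Cyc I Y) :=
  inferInstanceAs (AddCommGroup (I.J (𝟙_ C) Y))

instance (I : TrivialIdeal Λ R) (Y : C) : Module Λ (Cyc I Y) :=
  inferInstanceAs (Module Λ (I.J (𝟙_ C) Y))

/-- The action of the correspondence `f` on the homologically trivial cycles. -/
def push (I : TrivialIdeal Λ R) {Y Z : C} (f : Y ⟶ Z) (a : Cyc I Y) : Cyc I Z :=
  ⟨a.1 ≫ f, I.right f a.2⟩

/-- A height pairing: symmetric bilinear forms on the homologically trivial cycles (the sum over `p` of
the pairings of Beilinson on `V^p × V^(n + 1 - p)`) for which the transposed correspondence is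
the adjoint of the correspondence. -/
structure HeightPairing (I : TrivialIdeal Λ R) (E : Type x) [AddCommGroup E] [Module Λ E] where
  /-- the height pairing of `Y` -/
  ht : ∀ Y : C, Cyc I Y → Cyc I Y → E
  add : ∀ (Y : C) (a b c : Cyc I Y), ht Y (a + b) c = ht Y a c + ht Y b c
  smul : ∀ (Y : C) (r : Λ) (a b : Cyc I Y), ht Y (r • a) b = r • ht Y a b
  /-- the transposed correspondence -/
  transpose : ∀ {Y Z : C}, (Y ⟶ Z) → (Z ⟶ Y)
  /-- the projection formula -/
  adj : ∀ {Y Z : C} (f : Y ⟶ Z) (a : Cyc I Y) (b : Cyc I Z),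
    ht Z (push I f a) b = ht Y a (push I (transpose f) b)
  symm : ∀ (Y : C) (a b : Cyc I Y), ht Y a b = ht Y b a

namespace HeightPairing

variable {I : TrivialIdeal Λ R} {E : Type x} [AddCommGroup E] [Module Λ E]
  (H : HeightPairing I E)

/-- The kernel of the height pairing of `Y`. -/
def ker (Y : C) : Submodule Λ (Cyc I Y) where
  carrier := {a | ∀ b, H.ht Y a b = 0}
  zero_mem' b := by
    have h := H.smul Y 0 0 b
    rwa [zero_smul, zero_smul] at h
  add_mem' {a c} ha hc b := by rw [H.add, ha b, hc b, add_zero]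
  smul_mem' r a ha b := by rw [H.smul, ha b, smul_zero]

/-- The height pairing of `Y` is nondegenerate. -/
def Nondeg (Y : C) : Prop :=
  (∀ a : Cyc I Y, (∀ b, H.ht Y a b = 0) → a = 0) ∧ ∀ b : Cyc I Y, (∀ a, H.ht Y a b = 0) → b = 0

/-- The height pairing of `Y` is zero. -/
def Zero (Y : C) : Prop := ∀ a b : Cyc I Y, H.ht Y a b = 0

/-- The dimension of the kernel of the height pairing of `Y`. -/
noncomputable def kerDim (Y : C) : ℕ∞ := dimE Λ (H.ker Y)

/-- The rank of the height pairing of `Y`: the dimension of the space of the cycles modulo its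
kernel. -/
noncomputable def rk (Y : C) : ℕ∞ := dimE Λ (Cyc I Y ⧸ H.ker Y)

/-- Compositions `f` of `k` numerically trivial correspondences between powers of `T` kill the kernels
of the height pairings. -/
def KillsKer [MonoidalPreadditive C] [RightRigidCategory C] (T : C) (k : ℕ) : Prop :=
  ∀ (a b : ℕ) (f : tp T a ⟶ tp T b), NumPow T k f → ∀ y ∈ H.ker (tp T a), push I f y = 0

/-- For compositions `f` of `k` numerically trivial correspondences between powers of `T`, the image of
`f` is contained in the kernel of the height pairing. -/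
def KillsHeight [MonoidalPreadditive C] [RightRigidCategory C] (T : C) (k : ℕ) : Prop :=
  ∀ (a b : ℕ) (f : tp T a ⟶ tp T b), NumPow T k f →
    ∀ (y : Cyc I (tp T a)) (z : Cyc I (tp T b)), H.ht (tp T b) (push I f y) z = 0

end HeightPairing

/-- The subspaces `S` of the spaces of the homologically trivial cycles on the powers of `T` are
generated by at most `k` cycles on one power of `T` and their images under correspondences. -/
def Generated {I : TrivialIdeal Λ R} (S : ∀ Y : C, Submodule Λ (Cyc I Y)) (T : C) (k : ℕ) : Prop :=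
  ∃ (m l : ℕ) (z : Fin l → Cyc I (tp T m)), l ≤ k ∧ (∀ i, z i ∈ S (tp T m)) ∧
    ∀ n, ∀ y ∈ S (tp T n), y ∈ Submodule.span Λ {y : Cyc I (tp T n) |
      ∃ (i : Fin l) (c : tp T m ⟶ tp T n), push I c (z i) = y}

namespace HeightPairing

variable {I : TrivialIdeal Λ R} {E : Type x} [AddCommGroup E] [Module Λ E]
  (H : HeightPairing I E)

/-- The quotients by the numerical ranks of the powers of `T` of the dimensions of the spaces of the
homologically trivial cycles, of the dimensions of the kernels of the height pairings, and of the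
ranks of the height pairings, converge to `Nch`, `Nker` and `Nrk`. -/
def Limits [MonoidalPreadditive C] [RightRigidCategory C] [MonoidalLinear Λ C] (T : C)
    (Nch Nker Nrk : ℕ∞) : Prop :=
  RatioTo Λ T (fun n => dimE Λ (Cyc I (tp T n))) Nch ∧
    RatioTo Λ T (fun n => H.kerDim (tp T n)) Nker ∧ RatioTo Λ T (fun n => H.rk (tp T n)) Nrk

/-- Small kernels, small ranks and small groups of cycles: the consequences. -/
def Small [MonoidalPreadditive C] [RightRigidCategory C] (T : C) (Nch Nker Nrk : ℕ∞) : Prop :=
  (∀ k : ℕ, Nker = k → H.KillsKer T k ∧ Generated H.ker T k) ∧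
    (∀ k : ℕ, Nrk = k → H.KillsHeight T k) ∧
    ∀ k : ℕ, Nch = k → I.Nilpotent T (k + 1) ∧ Generated (I := I) (fun _ => ⊤) T k

/-- The gap. -/
def Gap [MonoidalPreadditive C] [RightRigidCategory C] [MonoidalLinear Λ C] (T : C) : Prop :=
  ∀ m n : ℕ, 128 * (m + 1) ^ 2 * bt R T ^ (2 * m + 6) ≤ 2 * n →
    (¬ H.Nondeg (tp T m) → Large Λ R T n (H.kerDim (tp T (2 * n)))) ∧
    (¬ H.Zero (tp T m) → Large Λ R T n (H.rk (tp T (2 * n))))

end HeightPairing

end Pool.Agent.Run7.h641.HP
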