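import Pool.Agent.Run7.h641.HP.Defs

/-!
# The law for the kernels and the ranks of the height pairings of all powers
-/

set_option autoImplicit false
set_option linter.unusedSectionVars false

open CategoryTheory Limits MonoidalCategory Module Filter Topology
open Pool.Agent.Y112.SR Pool.Agent.Y112.KD Pool.Agent.N64.AF Pool.Agent.Run7.h184.AJ
open scoped ENNReal

namespace Pool.Agent.Run7.h641.HP

universe v u w t x

variable {C : Type u} [Category.{v} C] [Preadditive C] [MonoidalCategory C]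
  [MonoidalPreadditive C] [SymmetricCategory C] [RightRigidCategory C]
  {Λ : Type t} [Field Λ] [CharZero Λ] [Linear Λ C] [MonoidalLinear Λ C]
  {K : Type w} [Field K] [IsAlgClosed K] [Algebra Λ K] {R : SuperRealisation C K}
  {I : TrivialIdeal Λ R} {E : Type x} [AddCommGroup E] [Module Λ E]

/-- The image of a cycle. -/
lemma ch_map {Y Z : C} (f : Y ⟶ Z) (a : Cyc I Y) :
    ((I.ch.map f).hom (show I.ch.obj Y from a) : Cyc I Z) = push I f a := rfl

namespace HeightPairing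

variable (H : HeightPairing I E)

lemma adj' {Y Z : C} (f : Y ⟶ Z) (a : Cyc I Y) (b : Cyc I Z) :
    H.ht Z ((I.ch.map f).hom (show I.ch.obj Y from a) : Cyc I Z) b =
      H.ht Y a ((I.ch.map (H.transpose f)).hom (show I.ch.obj Z from b) : Cyc I Y) := H.adj f a b

/-- The kernels as subspaces of the values of the functor. -/
def kerS (Y : C) : Submodule Λ (I.ch.obj Y) := H.ker Y

lemma ker_stab : IsStab I.ch H.kerS := by
  intro Y Z f a ha
  have h1 : ∀ b, H.ht Y (show Cyc I Y from a) b = 0 := ha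
  change ∀ b, H.ht Z ((I.ch.map f).hom a : Cyc I Z) b = 0
  intro b
  have h2 := H.adj' f (show Cyc I Y from a) b
  refine h2.trans ?_
  rw [h1]

/-- The functor of the kernels. -/
def kerH : C ⥤ ModuleCat.{v} Λ := sub I.ch H.kerS H.ker_stab

/-- The functor of the quotients by the kernels. -/
def quoH : C ⥤ ModuleCat.{v} Λ := quoS I.ch H.kerS H.ker_stab

instance : H.kerH.Additive := by unfold kerH; infer_instance

instance : H.kerH.Linear Λ := by unfold kerH; infer_instance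

instance : H.quoH.Additive := by unfold quoH; infer_instance

instance : H.quoH.Linear Λ := by unfold quoH; infer_instance

lemma sub_kerH (Y : C) : Subsingleton (H.kerH.obj Y) ↔ H.Nondeg Y := by
  have h : Subsingleton (H.kerH.obj Y) ↔ H.ker Y = ⊥ := Submodule.subsingleton_iff_eq_bot
  have h1 : H.ker Y = ⊥ ↔ ∀ a : Cyc I Y, (∀ b, H.ht Y a b = 0) → a = 0 :=
    Submodule.eq_bot_iff _
  rw [h, h1]
  refine ⟨fun h2 => ⟨h2, fun b hb => h2 b fun a => (H.symm Y b a).trans (hb a)⟩, fun h2 => h2.1⟩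

lemma sub_quoH (Y : C) : Subsingleton (H.quoH.obj Y) ↔ H.Zero Y := by
  have h : Subsingleton (H.quoH.obj Y) ↔ H.ker Y = ⊤ := Submodule.Quotient.subsingleton_iff
  rw [h, Submodule.eq_top_iff']
  exact Iff.rfl

end HeightPairing

namespace HeightPairing

variable (H : HeightPairing I E)

lemma dim_quoH (Y : C) : dimE Λ (H.quoH.obj Y) = H.rk Y := rfl

lemma dim_sum (Y : C) : dimE Λ (I.ch.obj Y) = H.kerDim Y + H.rk Y := by
  rw [← H.dim_quoH, add_comm]
  exact (dimE_quot_add (H.kerS Y)).symm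

/-- Generators of the kernels. -/
lemma gen_ker {T : C} [ExactPairing T T] (h : IsPow Λ R T) {k : ℕ}
    (hk : RatioTo Λ T (fun n => H.kerDim (tp T n)) k) : Generated H.ker T k := by
  obtain ⟨N, h1, -, h3⟩ := law h H.kerH
  have h4 : (N : ℝ≥0∞) = ((k : ℕ∞) : ℝ≥0∞) := tendsto_nhds_unique h1 hk
  have h5 : N = k := by exact_mod_cast h4
  subst h5
  obtain ⟨-, m, l, z, hl, hz⟩ := h3 (ENat.coe_ne_top k)
  refine ⟨m, l, fun i => (z i).1, by exact_mod_cast hl, fun i => (z i).2, fun n y hy => ?_⟩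
  have h6 : (⟨y, hy⟩ : H.ker (tp T n)) ∈ Submodule.span Λ {y : H.ker (tp T n) |
      ∃ (i : Fin l) (c : tp T m ⟶ tp T n), ((H.kerH.map c).hom (z i) : H.ker (tp T n)) = y} :=
    hz n (show H.kerH.obj (tp T n) from (⟨y, hy⟩ : H.ker (tp T n)))
  have h7 := Submodule.mem_map_of_mem (f := (H.ker (tp T n)).subtype) h6
  rw [Submodule.map_span] at h7
  refine Submodule.span_mono ?_ h7
  rintro _ ⟨_, ⟨i, c, rfl⟩, rfl⟩
  exact ⟨i, c, rfl⟩

/-- Generators of all cycles. -/
lemma gen_all {T : C} [ExactPairing T T] (h : IsPow Λ R T) {k : ℕ}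
    (hk : RatioTo Λ T (fun n => dimE Λ (I.ch.obj (tp T n))) k) :
    Generated (I := I) (fun _ => ⊤) T k := by
  obtain ⟨N, h1, -, h3⟩ := law h I.ch
  have h4 : (N : ℝ≥0∞) = ((k : ℕ∞) : ℝ≥0∞) := tendsto_nhds_unique h1 hk
  have h5 : N = k := by exact_mod_cast h4
  subst h5
  obtain ⟨-, m, l, z, hl, hz⟩ := h3 (ENat.coe_ne_top k)
  exact ⟨m, l, z, by exact_mod_cast hl, fun i => trivial, fun n y _ => hz n y⟩

/-- Compositions of numerically trivial correspondences and the kernels. -/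
lemma kills_ker {T : C} [ExactPairing T T] (h : IsPow Λ R T) {k : ℕ}
    (hk : RatioTo Λ T (fun n => H.kerDim (tp T n)) k) : H.KillsKer T k := by
  obtain ⟨-, hst⟩ := structure_thm h H.kerH hk
  intro a b f hf y hy
  have h3 := congrArg (fun q : H.kerH.obj (tp T a) ⟶ H.kerH.obj (tp T b) =>
    q.hom (show H.kerH.obj (tp T a) from (⟨y, hy⟩ : H.ker (tp T a)))) (hst a b f hf)
  exact congrArg (fun z : H.kerH.obj (tp T b) => (show H.ker (tp T b) from z).1) h3

/-- Compositions of numerically trivial correspondences and the height. -/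
lemma kills_height {T : C} [ExactPairing T T] (h : IsPow Λ R T) {k : ℕ}
    (hk : RatioTo Λ T (fun n => H.rk (tp T n)) k) : H.KillsHeight T k := by
  have hk' : RatioTo Λ T (fun n => dimE Λ (H.quoH.obj (tp T n))) k := by
    refine Tendsto.congr (fun n => ?_) hk
    show ((H.rk (tp T n) : ℕ∞) : ℝ≥0∞) / _ = ((dimE Λ (H.quoH.obj (tp T n)) : ℕ∞) : ℝ≥0∞) / _
    rw [H.dim_quoH]
  obtain ⟨-, hst⟩ := structure_thm h H.quoH hk'
  intro a b f hf y z
  have h3 := congrArg (fun q : H.quoH.obj (tp T a) ⟶ H.quoH.obj (tp T b) =>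
    q.hom (show H.quoH.obj (tp T a) from
      (Submodule.Quotient.mk (show I.ch.obj (tp T a) from y) :
        I.ch.obj (tp T a) ⧸ H.kerS (tp T a)))) (hst a b f hf)
  have h4 : (Submodule.Quotient.mk (p := H.kerS (tp T b)) ((I.ch.map f).hom y)) = 0 := h3
  have h5 : ∀ z, H.ht (tp T b) (push I f y) z = 0 := (Submodule.Quotient.mk_eq_zero _).1 h4
  exact h5 z

end HeightPairing

/-- Nilpotence. -/
theorem nilpotent {T : C} [ExactPairing T T] (h : IsPow Λ R T) {k : ℕ}
    (hk : RatioTo Λ T (fun n => dimE Λ (I.ch.obj (tp T n))) k) : I.Nilpotent T (k + 1) := by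
  obtain ⟨-, hst⟩ := structure_thm h I.ch hk
  have h0 : ∀ (b : ℕ) (f : tp T 0 ⟶ tp T b), I.JPow T (k + 1) f → f = 0 := by
    intro b f hf
    obtain ⟨c, α, f₁, hα, hf₁, rfl⟩ := TrivialIdeal.JPow.head I k hf
    have h1 := hst c b f₁ (TrivialIdeal.JPow.num I h.real k hf₁)
    have h3 := congrArg (fun q : I.ch.obj (tp T c) ⟶ I.ch.obj (tp T b) =>
      q.hom (show I.ch.obj (tp T c) from (⟨α, hα⟩ : Cyc I (tp T c)))) h1
    exact congrArg (fun z : I.ch.obj (tp T b) => (show Cyc I (tp T b) from z).1) h3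
  intro a
  induction a with
  | zero => exact h0
  | succ a ih =>
    intro b f hf
    have h1 : Pool.Agent.N645.AFK1.cur Λ T (tp T a) (tp T b) f = 0 := by
      apply ih (b + 1)
      rw [Pool.Agent.N645.AFK1.cur_eq]
      exact TrivialIdeal.JPow.comp I _ _ (TrivialIdeal.JPow.whisker I _ hf)
    exact (LinearEquiv.map_eq_zero_iff _).1 h1

namespace HeightPairing

variable (H : HeightPairing I E)

/-- **The law.** -/
theorem main {T : C} [ExactPairing T T] (h : IsPow Λ R T) :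
    (∃ Nch Nker Nrk : ℕ∞, H.Limits T Nch Nker Nrk ∧ Nch = Nker + Nrk ∧
      (Nker = 0 ↔ ∀ n, H.Nondeg (tp T n)) ∧ (Nrk = 0 ↔ ∀ n, H.Zero (tp T n)) ∧
      H.Small T Nch Nker Nrk) ∧ H.Gap T := by
  obtain ⟨Nch, a1, -⟩ := law h I.ch
  obtain ⟨Nker, c1, c2, -⟩ := law h H.kerH
  obtain ⟨Nrk, d1, d2, -⟩ := law h H.quoH
  have d1' : RatioTo Λ T (fun n => H.rk (tp T n)) Nrk := by
    refine Tendsto.congr (fun n => ?_) d1
    show ((dimE Λ (H.quoH.obj (tp T n)) : ℕ∞) : ℝ≥0∞) / _ = ((H.rk (tp T n) : ℕ∞) : ℝ≥0∞) / _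
    rw [H.dim_quoH]
  refine ⟨⟨Nch, Nker, Nrk, ⟨a1, c1, d1'⟩, ?_, c2.trans (forall_congr' fun n => H.sub_kerH _),
    d2.trans (forall_congr' fun n => H.sub_quoH _), ?_, ?_, ?_⟩,
    fun m n hn => ⟨fun hm => ?_, fun hm => ?_⟩⟩
  · have e1 := Tendsto.add c1 d1'
    have e3 : ∀ n, ((H.kerDim (tp T n) : ℕ∞) : ℝ≥0∞) / numRank Λ (tp T n) +
        ((H.rk (tp T n) : ℕ∞) : ℝ≥0∞) / numRank Λ (tp T n) =
        ((dimE Λ (I.ch.obj (tp T n)) : ℕ∞) : ℝ≥0∞) / numRank Λ (tp T n) := by
      intro n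
      have e4 := congrArg (fun z : ℕ∞ => (z : ℝ≥0∞)) (H.dim_sum (tp T n))
      simp only [ENat.toENNReal_add] at e4
      rw [← ENNReal.add_div]
      congr 1
      exact e4.symm
    have e5 := tendsto_nhds_unique a1 (e1.congr e3)
    exact_mod_cast e5
  · rintro k rfl
    exact ⟨H.kills_ker h c1, H.gen_ker h c1⟩
  · rintro k rfl
    exact H.kills_height h d1'
  · rintro k rfl
    exact ⟨nilpotent h a1, gen_all h a1⟩
  · exact gap h H.kerH hn fun hs => hm ((H.sub_kerH _).1 hs)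
  · have h1 := gap h H.quoH hn fun hs => hm ((H.sub_quoH _).1 hs)
    rw [H.dim_quoH] at h1
    exact h1

end HeightPairing

end Pool.Agent.Run7.h641.HP
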